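import Mathlib

/-!
# Maximal submonoids and minimal factor generators (MP_51bcab_lc, Q1)

The answer is no.  Over two kinds of brackets `[ ]`, `( )` let `N` be the set of words all of whose
closing brackets are correctly matched (unmatched opening brackets are allowed).  `N` is a
submonoid, maximal inside `F(N)`, and its minimal generating set `X` is not a minimal factor
generator: the word `[]` can be deleted from `X`.
-/

namespace Pool.Agent.Results.MP_51bcab_lc.NotMinimal

/-- `F(L)`: the factors of the words of `L`. -/
def Factors {A : Type} (L : Set (List A)) : Set (List A) := {u | ∃ x y, x ++ u ++ y ∈ L}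

/-- `X^*`: the submonoid generated by `X` (all finite concatenations of words of `X`). -/
def Star {A : Type} (X : Set (List A)) : Set (List A) :=
  {w | ∃ l : List (List A), (∀ x ∈ l, x ∈ X) ∧ l.flatten = w}

/-- `M` is a submonoid of `A^*`. -/
def IsSubmonoid {A : Type} (M : Set (List A)) : Prop := [] ∈ M ∧ ∀ u ∈ M, ∀ v ∈ M, u ++ v ∈ M

/-- `X` is the minimal generating set of `X^*`: the empty word is not in `X` and no element of `X`
is a product of two or more elements of `X`. -/
def IsMinimalGenerating {A : Type} (X : Set (List A)) : Prop :=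
  [] ∉ X ∧ ∀ l : List (List A), (∀ x ∈ l, x ∈ X) → 2 ≤ l.length → l.flatten ∉ X

/-- `M` is an `L`-maximal submonoid. -/
def IsMaximalIn {A : Type} (L M : Set (List A)) : Prop :=
  IsSubmonoid M ∧ M ⊆ L ∧ ∀ N : Set (List A), IsSubmonoid N → M ⊆ N → N ⊆ L → N = M

/-- `X` is a minimal factor generator: `F(Y^*) ≠ F(X^*)` for every proper subset `Y` of `X`. -/
def IsMinimalFactorGenerator {A : Type} (X : Set (List A)) : Prop :=
  ∀ Y : Set (List A), Y ⊂ X → Factors (Star Y) ≠ Factors (Star X)

/-! ### The bracket language -/

/-- Letters: `(true, x)` opens a bracket of kind `x`, `(false, x)` closes one. -/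
abbrev Letter := Bool × Bool

def step : Letter → List Bool → Option (List Bool)
  | (true, x), s => some (x :: s)
  | (false, _), [] => none
  | (false, x), y :: s => if x = y then some s else none

def run : List Letter → List Bool → Option (List Bool)
  | [], s => some s
  | a :: w, s => (step a s).bind (run w)

theorem run_append (u v : List Letter) (s : List Bool) :
    run (u ++ v) s = (run u s).bind (run v) := by
  induction u generalizing s with
  | nil => rfl
  | cons a u ih =>
    simp only [List.cons_append, run]
    rcases step a s with _ | t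
    · rfl
    · exact ih t

theorem step_mono (a : Letter) (s t r : List Bool) (h : step a s = some t) :
    step a (s ++ r) = some (t ++ r) := by
  obtain ⟨o, x⟩ := a
  rcases o with _ | _
  · rcases s with _ | ⟨y, s⟩
    · simp [step] at h
    · simp only [step, List.cons_append] at h ⊢
      split_ifs at h ⊢ with hxy
      simpa using h
  · simp only [step] at h ⊢
    simp only [Option.some.injEq] at h
    subst h
    rfl

theorem run_mono (w : List Letter) (s t r : List Bool) (h : run w s = some t) :
    run w (s ++ r) = some (t ++ r) := by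
  induction w generalizing s with
  | nil =>
    simp only [run, Option.some.injEq] at h ⊢
    rw [h]
  | cons a w ih =>
    simp only [run] at h ⊢
    rcases hs : step a s with _ | u
    · rw [hs] at h; simp at h
    · rw [hs] at h
      rw [step_mono a s u r hs]
      exact ih u h

/-- Words that never close a bracket that they have not opened. -/
def N : Set (List Letter) := {w | ∃ t, run w [] = some t}

/-- Words without a mismatch. -/
def L : Set (List Letter) := {w | ∃ s t, run w s = some t}

theorem N_submonoid : IsSubmonoid N := by
  refine ⟨⟨[], rfl⟩, ?_⟩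
  rintro u ⟨t, ht⟩ v ⟨t', ht'⟩
  refine ⟨t' ++ t, ?_⟩
  rw [run_append, ht]
  simpa using run_mono v [] t' t ht'

/-- Push the letters of `s` so that the stack is `s`. -/
def push (s : List Bool) : List Letter := s.reverse.map (fun x => (true, x))

def pop (s : List Bool) : List Letter := s.map (fun x => (false, x))

theorem run_push (s r : List Bool) : run (push s) r = some (s ++ r) := by
  induction s with
  | nil => rfl
  | cons x s ih =>
    have : push (x :: s) = push s ++ [(true, x)] := by simp [push]
    rw [this, run_append, ih]
    rfl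

theorem run_pop (s r : List Bool) : run (pop s) (s ++ r) = some r := by
  induction s with
  | nil => rfl
  | cons x s ih =>
    simp only [pop, List.map_cons, run, List.cons_append, step, if_true, Option.bind_some]
    exact ih

theorem factors_N : Factors N = L := by
  ext w
  constructor
  · rintro ⟨x, y, t, ht⟩
    rw [run_append, run_append] at ht
    rcases hx : run x [] with _ | s
    · rw [hx] at ht; simp at ht
    · rw [hx] at ht
      simp only [Option.bind_some] at ht
      rcases hw : run w s with _ | u
      · rw [hw] at ht; simp at ht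
      · exact ⟨s, u, hw⟩
  · rintro ⟨s, t, h⟩
    refine ⟨push s, [], t, ?_⟩
    rw [List.append_nil, run_append, run_push]
    simpa using h

/-- The irreducible elements of `N`. -/
def X : Set (List Letter) :=
  {w | w ∈ N ∧ w ≠ [] ∧ ∀ u v, u ∈ N → v ∈ N → u ++ v = w → u = [] ∨ v = []}

theorem flatten_mem_N (l : List (List Letter)) (h : ∀ x ∈ l, x ∈ N) : l.flatten ∈ N := by
  induction l with
  | nil => exact N_submonoid.1
  | cons a l ih =>
    rw [List.flatten_cons]
    exact N_submonoid.2 _ (h a (by simp)) _ (ih fun x hx => h x (by simp [hx]))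

theorem star_X : Star X = N := by
  ext w
  constructor
  · rintro ⟨l, hl, rfl⟩
    exact flatten_mem_N l fun x hx => (hl x hx).1
  · intro hw
    induction hn : w.length using Nat.strong_induction_on generalizing w with
    | _ n ih =>
      by_cases h0 : w = []
      · exact ⟨[], by simp, by simp [h0]⟩
      by_cases hX : w ∈ X
      · exact ⟨[w], by simpa using hX, by simp⟩
      have : ∃ u v, u ∈ N ∧ v ∈ N ∧ u ++ v = w ∧ u ≠ [] ∧ v ≠ [] := by
        by_contra hcon
        apply hX
        refine ⟨hw, h0, fun u v hu hv huv => ?_⟩
        by_contra h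
        rw [not_or] at h
        exact hcon ⟨u, v, hu, hv, huv, h.1, h.2⟩
      obtain ⟨u, v, hu, hv, rfl, hu0, hv0⟩ := this
      have hul := List.length_pos_iff.mpr hu0
      have hvl := List.length_pos_iff.mpr hv0
      rw [List.length_append] at hn
      obtain ⟨l1, h1, e1⟩ := ih u.length (by omega) u hu rfl
      obtain ⟨l2, h2, e2⟩ := ih v.length (by omega) v hv rfl
      refine ⟨l1 ++ l2, ?_, by simp [e1, e2]⟩
      intro x hx
      rcases List.mem_append.mp hx with h | h
      · exact h1 x h
      · exact h2 x h

theorem X_minimal : IsMinimalGenerating X := by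
  refine ⟨fun h => h.2.1 rfl, fun l hl h2 hX => ?_⟩
  rcases l with _ | ⟨a, l⟩
  · simp at h2
  rcases l with _ | ⟨b, l⟩
  · simp at h2
  have ha := hl a (by simp)
  have hb := hl b (by simp)
  rcases hX.2.2 a (b :: l).flatten ha.1
    (flatten_mem_N _ fun x hx => (hl x (List.mem_cons_of_mem _ hx)).1) (by simp) with h | h
  · exact ha.2.1 h
  · rw [List.flatten_cons] at h
    exact hb.2.1 (List.append_eq_nil_iff.mp h).1

theorem N_maximal : IsMaximalIn L N := by
  refine ⟨N_submonoid, ?_, ?_⟩
  · rintro w ⟨t, ht⟩
    exact ⟨[], t, ht⟩
  intro M hM hNM hML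
  refine Set.Subset.antisymm ?_ hNM
  intro w hw
  by_contra hwN
  -- a word of `L` outside `N` starts with a balanced word followed by a closing bracket
  have key : ∀ (w : List Letter) (s₀ : List Bool), (∃ s t, run w (s₀ ++ s) = some t) →
      (¬ ∃ t, run w s₀ = some t) → ∃ x : Bool, ∀ r, run w (s₀ ++ (!x) :: r) = none := by
    intro w
    induction w with
    | nil =>
      intro s₀ _ h
      exact absurd ⟨s₀, rfl⟩ h
    | cons a w ih =>
      rintro s₀ ⟨s, t, h1⟩ h2
      obtain ⟨o, x⟩ := a
      rcases o with _ | _
      · rcases s₀ with _ | ⟨y, s₀⟩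
        · refine ⟨x, fun r => ?_⟩
          simp [run, step]
        · simp only [run, step, List.cons_append] at h1 h2 ⊢
          by_cases hxy : x = y
          · rw [if_pos hxy] at h1 h2
            obtain ⟨z, hz⟩ := ih s₀ ⟨s, t, h1⟩ h2
            refine ⟨z, fun r => ?_⟩
            rw [if_pos hxy]
            exact hz r
          · rw [if_neg hxy] at h1
            simp at h1
      · simp only [run, step] at h1 h2 ⊢
        obtain ⟨z, hz⟩ := ih (x :: s₀) ⟨s, t, h1⟩ h2
        exact ⟨z, fun r => hz r⟩
  obtain ⟨s, t, hst⟩ := hML hw
  obtain ⟨x, hx⟩ := key w [] ⟨s, t, by simpa using hst⟩ hwN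
  have h1 : [((true, !x) : Letter)] ++ w ∈ M := hM.2 _ (hNM ⟨[!x], rfl⟩) _ hw
  obtain ⟨s', t', h2⟩ := hML h1
  rw [run_append] at h2
  have h3 := hx s'
  simp only [List.nil_append] at h3
  simp [run, step, h3] at h2

/-- Wrapping a balanced word in a pair of brackets gives an irreducible word. -/
theorem wrap_mem_X (b : List Letter) (hb : run b [] = some []) :
    [((true, true) : Letter)] ++ b ++ [((false, true) : Letter)] ∈ X := by
  refine ⟨⟨[], ?_⟩, by simp, ?_⟩
  · rw [run_append, run_append]
    have := run_mono b [] [] [true] hb
    simp only [List.nil_append] at this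
    simp [run, step, this]
  · intro u v hu hv huv
    by_contra hcon
    rw [not_or] at hcon
    obtain ⟨hu0, hv0⟩ := hcon
    -- `u = (true,true) :: u'`, `v = v' ++ [(false,true)]`, `u' ++ v' = b`
    obtain ⟨a, u', rfl⟩ := List.exists_cons_of_ne_nil hu0
    rcases List.eq_nil_or_concat v with h | ⟨v', c, rfl⟩
    · exact hv0 h
    have e : a = (true, true) ∧ (u' ++ v') ++ [c] = b ++ [((false, true) : Letter)] := by
      simpa using huv
    obtain ⟨rfl, e2⟩ := e
    obtain ⟨e3, e4⟩ := List.append_inj' e2 rfl
    obtain rfl : c = (false, true) := by simpa using e4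
    rw [← e3, run_append] at hb
    rcases h1 : run u' [] with _ | t1
    · rw [h1] at hb; simp at hb
    rw [h1, Option.bind_some] at hb
    obtain ⟨t, ht⟩ := hv
    rw [List.concat_eq_append, run_append] at ht
    rcases h2 : run v' [] with _ | t2
    · rw [h2] at ht; simp at ht
    have h3 := run_mono v' [] t2 t1 h2
    rw [List.nil_append, hb, Option.some.injEq] at h3
    obtain ⟨rfl, -⟩ := List.append_eq_nil_iff.mp h3.symm
    rw [h2] at ht
    simp [run, step] at ht

theorem star_mono {A : Type} {X Y : Set (List A)} (h : Y ⊆ X) : Star Y ⊆ Star X := by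
  rintro w ⟨l, hl, rfl⟩
  exact ⟨l, fun x hx => h (hl x hx), rfl⟩

theorem factors_mono {A : Type} {X Y : Set (List A)} (h : Y ⊆ X) : Factors Y ⊆ Factors X := by
  rintro w ⟨x, y, hw⟩
  exact ⟨x, y, h hw⟩

/-- **MP_51bcab_lc, Q1: No.**  There is a set `X` of words over a four-letter alphabet such that
`X` is the minimal generating set of `X^*`, `X^*` is an `F(X^*)`-maximal submonoid, but `X` is not
a minimal factor generator. -/
theorem result : ∃ X : Set (List (Bool × Bool)), IsMinimalGenerating X ∧
    IsMaximalIn (Factors (Star X)) (Star X) ∧ ¬ IsMinimalFactorGenerator X := by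
  refine ⟨X, X_minimal, ?_, ?_⟩
  · rw [star_X, factors_N]
    exact N_maximal
  · intro h
    let x₀ : List Letter := [(true, true), (false, true)]
    have hx₀ : x₀ ∈ X := wrap_mem_X [] rfl
    refine h (X \ {x₀}) ⟨Set.sdiff_subset, fun hsub => (hsub hx₀).2 rfl⟩ ?_
    refine Set.Subset.antisymm (factors_mono (star_mono Set.sdiff_subset)) ?_
    rw [star_X, factors_N]
    rintro w ⟨s, t, hw⟩
    by_cases h0 : w = []
    · subst h0
      exact ⟨[], [], [], by simp, rfl⟩
    have hb : run (push s ++ w ++ pop t) [] = some [] := by
      rw [run_append, run_append, run_push, List.append_nil, Option.bind_some, hw,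
        Option.bind_some]
      simpa using run_pop t []
    refine ⟨[(true, true)] ++ push s, pop t ++ [(false, true)],
      [[((true, true) : Letter)] ++ (push s ++ w ++ pop t) ++ [((false, true) : Letter)]], ?_, ?_⟩
    · intro x hx
      rw [List.mem_singleton] at hx
      subst hx
      refine ⟨wrap_mem_X _ hb, fun hcon => ?_⟩
      have hl := congrArg List.length hcon
      have hwl := List.length_pos_iff.mpr h0
      simp only [List.length_append, List.length_cons, List.length_nil, x₀] at hl
      omega
    · simp

end Pool.Agent.Results.MP_51bcab_lc.NotMinimal
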